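import Pool.Agent.Y142.ZI.Stm
import Pool.Agent.Y405.ZI.TypU

/-!
Project OI (helper282), job TYPS: local type `sign change`.
-/

set_option autoImplicit false

open Matrix Polynomial Filter Topology NumberField IsDedekindDomain
open Pool.Agent.Y142.ZO Pool.Agent.Y142.ZI

namespace Pool.Agent.Q129.OI.TYPS

variable {ℓ : ℕ} [hℓ : Fact ℓ.Prime]

/-- the integers `b` -/
def bz (ℓ m : ℕ) : Option (Fin m × Bool) → ℤ
  | none => 0
  | some (i, true) => ((i : ℕ) : ℤ) + 1 - ℓ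
  | some (i, false) => ℓ - (((i : ℕ) : ℤ) + 1)

/-- the numbers `c` -/
noncomputable def cz (ℓ m : ℕ) [Fact ℓ.Prime] (c : ℚ_[ℓ]) : Option (Fin m × Bool) → ℚ_[ℓ]
  | none => c
  | some (_, true) => (ℓ : ℚ_[ℓ])
  | some (_, false) => -(ℓ : ℚ_[ℓ])

/-- the multiplicities -/
def mz (m : ℕ) : Option (Fin m × Bool) → ℕ
  | none => 2
  | some _ => 1

theorem nd {ℓ : ℕ} {z : ℤ} (h : (ℓ : ℤ) ∣ z) (h1 : -(ℓ : ℤ) < z) (h2 : z < ℓ) : z = 0 :=
  Int.eq_zero_of_abs_lt_dvd h (abs_lt.2 ⟨h1, h2⟩)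

omit hℓ in
theorem bz_inj {m : ℕ} (hm : 2 * m + 2 < ℓ) (i j : Option (Fin m × Bool)) (hij : i ≠ j) :
    ¬ (ℓ : ℤ) ∣ bz ℓ m i - bz ℓ m j := by
  intro h
  rcases i with _ | ⟨i, s⟩ <;> rcases j with _ | ⟨j, t⟩
  · exact hij rfl
  · have hj := j.2
    rcases t with _ | _
    · have h3 : (ℓ : ℤ) ∣ ((j : ℕ) : ℤ) + 1 := by
        have h4 := dvd_add h (dvd_refl (ℓ : ℤ))
        simpa [bz] using h4
      have := nd h3 (by omega) (by omega)
      omega
    · have h3 : (ℓ : ℤ) ∣ -(((j : ℕ) : ℤ) + 1) := by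
        have h4 := dvd_sub h (dvd_refl (ℓ : ℤ))
        have e : bz ℓ m none - bz ℓ m (some (j, true)) - ℓ = -(((j : ℕ) : ℤ) + 1) := by
          simp only [bz]
          ring
        rwa [e] at h4
      have := nd h3 (by omega) (by omega)
      omega
  · have hi := i.2
    rcases s with _ | _
    · have h3 : (ℓ : ℤ) ∣ -(((i : ℕ) : ℤ) + 1) := by
        have h4 := dvd_sub h (dvd_refl (ℓ : ℤ))
        have e : bz ℓ m (some (i, false)) - bz ℓ m none - ℓ = -(((i : ℕ) : ℤ) + 1) := by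
          simp only [bz]
          ring
        rwa [e] at h4
      have := nd h3 (by omega) (by omega)
      omega
    · have h3 : (ℓ : ℤ) ∣ ((i : ℕ) : ℤ) + 1 := by
        have h4 := dvd_add h (dvd_refl (ℓ : ℤ))
        have e : bz ℓ m (some (i, true)) - bz ℓ m none + ℓ = ((i : ℕ) : ℤ) + 1 := by
          simp only [bz]
          ring
        rwa [e] at h4
      have := nd h3 (by omega) (by omega)
      omega
  · have hi := i.2
    have hj := j.2
    rcases s with _ | _ <;> rcases t with _ | _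
    · have h3 : (ℓ : ℤ) ∣ ((j : ℕ) : ℤ) - ((i : ℕ) : ℤ) := by
        have e : bz ℓ m (some (i, false)) - bz ℓ m (some (j, false)) = ((j : ℕ) : ℤ) - ((i : ℕ) : ℤ) := by
          simp only [bz]
          ring
        rwa [e] at h
      have h5 := nd h3 (by omega) (by omega)
      apply hij
      have h6 : i = j := Fin.ext (by omega)
      rw [h6]
    · have h3 : (ℓ : ℤ) ∣ -(((i : ℕ) : ℤ) + ((j : ℕ) : ℤ) + 2) := by
        have h4 := dvd_sub (dvd_sub h (dvd_refl (ℓ : ℤ))) (dvd_refl (ℓ : ℤ))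
        have e : bz ℓ m (some (i, false)) - bz ℓ m (some (j, true)) - ℓ - ℓ =
            -(((i : ℕ) : ℤ) + ((j : ℕ) : ℤ) + 2) := by
          simp only [bz]
          ring
        rwa [e] at h4
      have := nd h3 (by omega) (by omega)
      omega
    · have h3 : (ℓ : ℤ) ∣ ((i : ℕ) : ℤ) + ((j : ℕ) : ℤ) + 2 := by
        have h4 := dvd_add (dvd_add h (dvd_refl (ℓ : ℤ))) (dvd_refl (ℓ : ℤ))
        have e : bz ℓ m (some (i, true)) - bz ℓ m (some (j, false)) + ℓ + ℓ =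
            ((i : ℕ) : ℤ) + ((j : ℕ) : ℤ) + 2 := by
          simp only [bz]
          ring
        rwa [e] at h4
      have := nd h3 (by omega) (by omega)
      omega
    · have h3 : (ℓ : ℤ) ∣ ((i : ℕ) : ℤ) - ((j : ℕ) : ℤ) := by
        have e : bz ℓ m (some (i, true)) - bz ℓ m (some (j, true)) = ((i : ℕ) : ℤ) - ((j : ℕ) : ℤ) := by
          simp only [bz]
          ring
        rwa [e] at h
      have h5 := nd h3 (by omega) (by omega)
      apply hij
      have h6 : i = j := Fin.ext (by omega)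
      rw [h6]

theorem b_norm {m : ℕ} (hm : 2 * m + 2 < ℓ) (i j : Option (Fin m × Bool)) (hij : i ≠ j) :
    ‖((bz ℓ m i : ℤ) : ℚ_[ℓ]) - ((bz ℓ m j : ℤ) : ℚ_[ℓ])‖ = 1 := by
  have h1 : ((bz ℓ m i : ℤ) : ℚ_[ℓ]) - ((bz ℓ m j : ℤ) : ℚ_[ℓ]) = ((bz ℓ m i - bz ℓ m j : ℤ) : ℚ_[ℓ]) := by
    push_cast
    ring
  rw [h1]
  apply le_antisymm (Padic.norm_int_le_one _)
  by_contra h
  rw [not_le, Padic.norm_intCast_lt_one_iff] at h
  exact bz_inj hm i j hij h

theorem c_norm {m : ℕ} (c : ℚ_[ℓ]) (hc : ‖c‖ = (ℓ : ℝ)⁻¹) (j : Option (Fin m × Bool)) :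
    ‖cz ℓ m c j‖ = (ℓ : ℝ)⁻¹ := by
  rcases j with _ | ⟨j, t⟩
  · exact hc
  · rcases t with _ | _
    · show ‖-(ℓ : ℚ_[ℓ])‖ = _
      rw [norm_neg, Padic.norm_p]
    · exact Padic.norm_p

theorem prod_eq {m : ℕ} (c : ℚ_[ℓ]) :
    ∏ j : Option (Fin m × Bool), ((X - C ((bz ℓ m j : ℤ) : ℚ_[ℓ])) ^ mz m j - C (cz ℓ m c j)) =
      (X ^ 2 - C c) * (diagonal fun i : Fin m => (((i : ℕ) : ℚ_[ℓ]) + 1)).charpoly *
        (-(diagonal fun i : Fin m => (((i : ℕ) : ℚ_[ℓ]) + 1))).charpoly := by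
  have hneg : -(diagonal fun i : Fin m => (((i : ℕ) : ℚ_[ℓ]) + 1)) =
      diagonal fun i : Fin m => -(((i : ℕ) : ℚ_[ℓ]) + 1) := by
    ext i j
    by_cases h : i = j
    · subst h
      simp
    · simp [h]
  rw [hneg, Matrix.charpoly_diagonal, Matrix.charpoly_diagonal, Fintype.prod_option, mul_assoc,
    ← Finset.prod_mul_distrib, Fintype.prod_prod_type]
  congr 1
  · simp [bz, mz, cz]
  · refine Finset.prod_congr rfl fun i _ => ?_
    rw [Fintype.prod_bool]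
    congr 1
    · simp only [bz, mz, cz]
      push_cast
      simp only [map_sub, map_add, map_natCast, map_one]
      ring
    · simp only [bz, mz, cz]
      push_cast
      simp only [map_sub, map_add, map_neg, map_natCast, map_one]
      ring

theorem t (hCLQ : S_CLQ) : S_TYPS := by
  intro ℓ hℓ m hm
  have h2 : ℓ ≠ 2 := by omega
  refine ⟨diagonal fun i : Fin m => (((i : ℕ) : ℚ_[ℓ]) + 1), fun c hcn => ?_⟩
  obtain ⟨ε, hε, hQ⟩ := hCLQ ℓ h2 (Option (Fin m × Bool)) (fun j => ((bz ℓ m j : ℤ) : ℚ_[ℓ])) (cz ℓ m c)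
    (mz m) (fun j => Padic.norm_int_le_one _) (b_norm hm)
    (by
      intro j
      rcases j with _ | j
      · exact Nat.zero_lt_two
      · exact Nat.zero_lt_one)
    (c_norm c hcn)
  refine ⟨ε, hε, ?_⟩
  intro k Q hk hQm hQd hinv hcoef F hF
  obtain ⟨-, q1, q2, -, q4, q5, q6, q7⟩ := hQ k Q hk hQm (by
    rw [hQd, Fintype.sum_option]
    simp only [mz, Finset.sum_const, Finset.card_univ, Fintype.card_prod, Fintype.card_fin,
      Fintype.card_bool, smul_eq_mul, mul_one]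
    ring) hinv (by
    intro i
    rw [prod_eq]
    exact hcoef i)
  have e0 : Clus ℓ k Q ((bz ℓ m none : ℤ) : ℚ_[ℓ]) = Clus ℓ k Q 0 := by
    simp [bz]
  have hQ1 : Q.eval 1 ≠ 0 := q1 (by
    intro j hj
    rcases eq_or_ne j none with rfl | hj0
    · simp [bz]
    · exfalso
      have h5 := b_norm hm j none hj0
      have h6 : ((bz ℓ m none : ℤ) : ℚ_[ℓ]) = 0 := by simp [bz]
      rw [h6, sub_zero] at h5
      rw [h5] at hj
      exact lt_irrefl _ hj)
  have hcard := q4 none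
  simp only [mz] at hcard
  rw [e0] at hcard
  obtain ⟨z₀, hz₀⟩ : (Clus ℓ k Q 0).Nonempty := by
    apply Set.nonempty_of_ncard_ne_zero
    rw [hcard]
    norm_num
  have hz0 : z₀ ≠ 0 := (hinv z₀ hz₀.1).1
  have hzi : z₀⁻¹ ∈ Clus ℓ k Q 0 := by
    have h5 := q5 none none (by simp [bz]) z₀
    simp only [e0] at h5
    exact h5 hz₀
  have hcl := Pool.Agent.Y405.ZI.clus0 h2 hQ1 hz₀ hcard hzi hz0
  obtain ⟨τ, hτ⟩ := q7 F hF none z₀ (by simp only [e0]; exact hz₀) z₀⁻¹ (by simp only [e0]; exact hzi)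
  refine ⟨τ, z₀, hz₀.1, hτ, ?_⟩
  intro y hy hy1 hy2
  obtain ⟨j, hj⟩ := q2 y hy
  rcases j with _ | j
  · exfalso
    simp only [e0] at hj
    rcases hcl y hj with h4 | h4
    · exact hy1 h4
    · exact hy2 h4
  · have hc1 := q4 (some j)
    simp only [mz] at hc1
    obtain ⟨a, ha⟩ := Set.ncard_eq_one.1 hc1
    have h5 := q6 (τ.restrictScalars ℚ_[ℓ]) (some j) y hj
    have h6 : τ y ∈ Clus ℓ k Q ((bz ℓ m (some j) : ℤ) : ℚ_[ℓ]) := h5
    rw [ha, Set.mem_singleton_iff] at hj h6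
    rw [h6, hj]

end Pool.Agent.Q129.OI.TYPS
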